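import Pool.Agent.Helper60_AEU.Stmt

/-!
AEU Part III, module KTB: basic facts on the Macdonald functions.
-/

set_option autoImplicit false

namespace Pool.Agent.H60K.H51

open MeasureTheory Complex Filter Topology Set Pool.Agent.H38KL Pool.Agent.H60K

lemma kit0_eq {x : ℝ} : Kit 0 x = ∫ v in Ioi (0 : ℝ), Real.exp (-(x * Real.cosh v)) := by
  unfold Kit
  simp

lemma ioi_intg {x : ℝ} (hx : 0 < x) (s : Set ℝ) :
    IntegrableOn (fun v : ℝ => Real.exp (-(x * Real.cosh v))) s :=
  (intg_exp_cosh hx).integrableOn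

lemma kit0_anti : AntitoneOn (Kit 0) (Ioi 0) := by
  intro x hx y hy hxy
  rw [kit0_eq, kit0_eq]
  refine integral_mono (ioi_intg hy _) (ioi_intg hx _) fun v => ?_
  have h := Real.cosh_pos v
  exact Real.exp_le_exp.2 (neg_le_neg (mul_le_mul_of_nonneg_right hxy h.le))

/-- integration by parts -/
lemma kit_one_div {τ x : ℝ} (hx : 0 < x) (hτ : 0 < τ) : |Kit τ x| ≤ 1 / τ := by
  have hE : ∀ v : ℝ, HasDerivAt (fun v : ℝ => Real.exp (-(x * Real.cosh v)))
      (Real.exp (-(x * Real.cosh v)) * (-(x * Real.sinh v))) v := fun v =>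
    (((Real.hasDerivAt_cosh v).const_mul x).neg).exp
  have hS : ∀ v : ℝ, HasDerivAt (fun v : ℝ => Real.sin (τ * v) / τ) (Real.cos (τ * v)) v := by
    intro v
    have h1 : HasDerivAt (fun v : ℝ => τ * v) (τ * 1) v := (hasDerivAt_id v).const_mul τ
    have h2 := (h1.sin).div_const τ
    refine h2.congr_deriv ?_
    field_simp
  have hP : ∀ v : ℝ, HasDerivAt (fun v : ℝ => Real.exp (-(x * Real.cosh v)) * (Real.sin (τ * v) / τ))
      (Real.exp (-(x * Real.cosh v)) * (-(x * Real.sinh v)) * (Real.sin (τ * v) / τ)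
        + Real.exp (-(x * Real.cosh v)) * Real.cos (τ * v)) v := fun v => (hE v).mul (hS v)
  have i1 : Integrable (fun v : ℝ => x * Real.cosh v * Real.exp (-(x * Real.cosh v))) := by
    have := (intg_cosh_pow_exp hx 1).const_mul x
    refine this.congr (Eventually.of_forall fun v => ?_)
    simp only [pow_one]
    ring
  have i2 : Integrable (fun v : ℝ => Real.exp (-(x * Real.cosh v)) * (-(x * Real.sinh v))) := by
    refine i1.mono' (by fun_prop) (Eventually.of_forall fun v => ?_)
    rw [Real.norm_eq_abs, abs_mul, abs_of_pos (Real.exp_pos _), abs_neg, abs_mul, abs_of_pos hx]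
    have h1 : |Real.sinh v| ≤ Real.cosh v := by
      rw [abs_le]
      constructor
      · have := Real.cosh_add_sinh v
        have := Real.exp_pos v
        linarith
      · exact (Real.sinh_lt_cosh v).le
    calc Real.exp (-(x * Real.cosh v)) * (x * |Real.sinh v|)
        ≤ Real.exp (-(x * Real.cosh v)) * (x * Real.cosh v) := by gcongr
      _ = _ := by ring
  have i3 : Integrable (fun v : ℝ => Real.exp (-(x * Real.cosh v)) * (-(x * Real.sinh v))
      * (Real.sin (τ * v) / τ)) := by
    refine i2.mul_bdd (c := 1 / τ) (by fun_prop) (Eventually.of_forall fun v => ?_)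
    rw [Real.norm_eq_abs, abs_div, abs_of_pos hτ]
    exact div_le_div_of_nonneg_right (Real.abs_sin_le_one _) hτ.le
  have hlim : Tendsto (fun v : ℝ => Real.exp (-(x * Real.cosh v)) * (Real.sin (τ * v) / τ)) atTop
      (𝓝 0) := by
    have h1 : Tendsto (fun v : ℝ => 1 / τ * Real.exp (-(x * v))) atTop (𝓝 (1 / τ * 0)) := by
      refine Tendsto.const_mul _ ?_
      refine Real.tendsto_exp_atBot.comp ?_
      exact tendsto_neg_atTop_atBot.comp (tendsto_id.const_mul_atTop hx)
    rw [mul_zero] at h1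
    refine squeeze_zero_norm (fun v => ?_) h1
    rw [Real.norm_eq_abs, abs_mul, abs_of_pos (Real.exp_pos _), abs_div, abs_of_pos hτ, mul_comm]
    have h2 : v ≤ Real.cosh v := le_trans (le_abs_self v) (abs_le_cosh v)
    have h3 : |Real.sin (τ * v)| / τ ≤ 1 / τ :=
      div_le_div_of_nonneg_right (Real.abs_sin_le_one _) hτ.le
    gcongr
  have hlimE : Tendsto (fun v : ℝ => Real.exp (-(x * Real.cosh v))) atTop (𝓝 0) := by
    have h1 : Tendsto (fun v : ℝ => Real.exp (-(x * v))) atTop (𝓝 0) := by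
      refine Real.tendsto_exp_atBot.comp ?_
      exact tendsto_neg_atTop_atBot.comp (tendsto_id.const_mul_atTop hx)
    refine squeeze_zero_norm (fun v => ?_) h1
    rw [Real.norm_eq_abs, abs_of_pos (Real.exp_pos _)]
    have h2 : v ≤ Real.cosh v := le_trans (le_abs_self v) (abs_le_cosh v)
    gcongr
  have key : ∫ v in Ioi (0 : ℝ), (Real.exp (-(x * Real.cosh v)) * (-(x * Real.sinh v))
      * (Real.sin (τ * v) / τ) + Real.exp (-(x * Real.cosh v)) * Real.cos (τ * v)) = 0 := by
    have h1 := integral_Ioi_of_hasDerivAt_of_tendsto (a := 0) (m := 0)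
      (f := fun v : ℝ => Real.exp (-(x * Real.cosh v)) * (Real.sin (τ * v) / τ))
      (f' := fun v => Real.exp (-(x * Real.cosh v)) * (-(x * Real.sinh v)) * (Real.sin (τ * v) / τ)
        + Real.exp (-(x * Real.cosh v)) * Real.cos (τ * v))
      (hP 0).continuousAt.continuousWithinAt (fun v _ => hP v)
      ((i3.add (Kit_intg hx τ)).integrableOn) hlim
    rw [h1]
    simp
  have keyE : ∫ v in Ioi (0 : ℝ), Real.exp (-(x * Real.cosh v)) * (-(x * Real.sinh v))
      = 0 - Real.exp (-(x * Real.cosh 0)) :=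
    integral_Ioi_of_hasDerivAt_of_tendsto (a := 0) (m := 0) (hE 0).continuousAt.continuousWithinAt
      (fun v _ => hE v) i2.integrableOn hlimE
  rw [integral_add i3.integrableOn (Kit_intg hx τ).integrableOn] at key
  have h2 : Kit τ x = -∫ v in Ioi (0 : ℝ), Real.exp (-(x * Real.cosh v)) * (-(x * Real.sinh v))
      * (Real.sin (τ * v) / τ) := by
    unfold Kit
    linarith
  rw [h2, abs_neg]
  calc |∫ v in Ioi (0 : ℝ), Real.exp (-(x * Real.cosh v)) * (-(x * Real.sinh v))
        * (Real.sin (τ * v) / τ)|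
      ≤ ∫ v in Ioi (0 : ℝ), |Real.exp (-(x * Real.cosh v)) * (-(x * Real.sinh v))
        * (Real.sin (τ * v) / τ)| := abs_integral_le_integral_abs
    _ ≤ ∫ v in Ioi (0 : ℝ), -(Real.exp (-(x * Real.cosh v)) * (-(x * Real.sinh v))) * (1 / τ) := by
        refine setIntegral_mono_on i3.abs.integrableOn (i2.neg.mul_const _).integrableOn
          measurableSet_Ioi fun v hv => ?_
        have hs : 0 ≤ Real.sinh v := Real.sinh_nonneg_iff.2 (le_of_lt hv)
        have h0 : Real.exp (-(x * Real.cosh v)) * (-(x * Real.sinh v)) ≤ 0 := by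
          have := mul_nonneg (Real.exp_pos (-(x * Real.cosh v))).le (mul_nonneg hx.le hs)
          linarith
        rw [abs_mul, abs_of_nonpos h0, abs_div, abs_of_pos hτ]
        exact mul_le_mul_of_nonneg_left
          (div_le_div_of_nonneg_right (Real.abs_sin_le_one _) hτ.le) (neg_nonneg.2 h0)
    _ = Real.exp (-x) * (1 / τ) := by
        rw [integral_mul_const, integral_neg, keyE]
        simp
    _ ≤ 1 * (1 / τ) := by
        have : Real.exp (-x) ≤ 1 := Real.exp_le_one_iff.2 (by linarith)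
        have h3 : 0 ≤ 1 / τ := by positivity
        gcongr
    _ = 1 / τ := one_mul _

/-- logarithmic bound at zero, exponential decay at infinity -/
lemma kit0_log {x : ℝ} (hx : 0 < x) :
    Kit 0 x ≤ (Real.exp 1 * (1 + Kit 0 (1 / 2) + Kit 0 1)) * (1 + |Real.log x|) * Real.exp (-x) := by
  have hp1 : 0 < Kit 0 1 := Kit_zero_pos one_pos
  have hp2 : 0 < Kit 0 (1 / 2) := Kit_zero_pos (by norm_num)
  have hl : 0 ≤ |Real.log x| := abs_nonneg _
  rcases le_or_gt 1 x with h1 | h1
  · -- `x ≥ 1`
    have h2 : Kit 0 x ≤ Real.exp 1 * Kit 0 1 * Real.exp (-x) := by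
      have h3 : Real.exp 1 * Kit 0 1 * Real.exp (-x)
          = ∫ v in Ioi (0 : ℝ), Real.exp (1 - x) * Real.exp (-(1 * Real.cosh v)) := by
        rw [integral_const_mul, ← kit0_eq, sub_eq_add_neg, Real.exp_add]
        ring
      rw [h3, kit0_eq]
      refine integral_mono (ioi_intg hx _) ((ioi_intg one_pos _).const_mul _) fun v => ?_
      show Real.exp (-(x * Real.cosh v)) ≤ Real.exp (1 - x) * Real.exp (-(1 * Real.cosh v))
      rw [← Real.exp_add]
      refine Real.exp_le_exp.2 ?_
      have := Real.one_le_cosh v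
      nlinarith
    refine h2.trans ?_
    refine mul_le_mul_of_nonneg_right ?_ (Real.exp_pos _).le
    have h4 : 0 < Real.exp 1 := Real.exp_pos 1
    have h5 : Real.exp 1 * Kit 0 1 ≤ Real.exp 1 * (1 + Kit 0 (1 / 2) + Kit 0 1) := by
      refine mul_le_mul_of_nonneg_left ?_ h4.le
      linarith
    have h6 : 0 ≤ Real.exp 1 * (1 + Kit 0 (1 / 2) + Kit 0 1) := by positivity
    nlinarith
  · -- `x < 1`
    have hT : 0 < |Real.log x| := abs_pos.2 (Real.log_neg hx h1).ne
    have hTx : Real.exp |Real.log x| = x⁻¹ := by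
      rw [abs_of_neg (Real.log_neg hx h1), Real.exp_neg, Real.exp_log hx]
    set T := |Real.log x| with hTd
    have h2 : Kit 0 x = (∫ v in Ioc 0 T, Real.exp (-(x * Real.cosh v)))
        + ∫ v in Ioi T, Real.exp (-(x * Real.cosh v)) := by
      rw [kit0_eq, ← setIntegral_union Ioc_disjoint_Ioi_same measurableSet_Ioi
        (ioi_intg hx _) (ioi_intg hx _), Ioc_union_Ioi_eq_Ioi hT.le]
    have h3 : ∫ v in Ioc 0 T, Real.exp (-(x * Real.cosh v)) ≤ T := by
      have : ∫ v in Ioc 0 T, Real.exp (-(x * Real.cosh v)) ≤ ∫ v in Ioc 0 T, (1 : ℝ) := by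
        refine integral_mono (ioi_intg hx _) (integrableOn_const (by simp)) fun v => ?_
        refine Real.exp_le_one_iff.2 ?_
        have := mul_pos hx (Real.cosh_pos v)
        linarith
      refine this.trans (le_of_eq ?_)
      simp [hT.le]
    have h4 : ∫ v in Ioi T, Real.exp (-(x * Real.cosh v)) ≤ Kit 0 (1 / 2) := by
      have h5 : ∫ v in Ioi T, Real.exp (-(x * Real.cosh v))
          = ∫ w in Ioi 0, Real.exp (-(x * Real.cosh (w + T))) := by
        have := (measurePreserving_add_right (volume : Measure ℝ) T).setIntegral_preimage_emb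
          (measurableEmbedding_addRight T) (fun v => Real.exp (-(x * Real.cosh v))) (Ioi T)
        rw [← this]
        congr 2
        ext w
        simp
      rw [h5, kit0_eq]
      have i5 : Integrable (fun w : ℝ => Real.exp (-(x * Real.cosh (w + T)))) :=
        (intg_exp_cosh hx).comp_add_right T
      refine setIntegral_mono_on i5.integrableOn (ioi_intg (by norm_num) _) measurableSet_Ioi
        fun w hw => ?_
      refine Real.exp_le_exp.2 (neg_le_neg ?_)
      have e1 : x * Real.cosh (w + T) ≥ Real.exp w / 2 := by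
        rw [Real.cosh_eq, Real.exp_add, hTx]
        have : 0 < Real.exp (-(w + T)) := Real.exp_pos _
        have h6 : x * ((Real.exp w * x⁻¹ + Real.exp (-(w + T))) / 2)
            = Real.exp w / 2 + x * Real.exp (-(w + T)) / 2 := by
          field_simp
        rw [h6]
        have := mul_pos hx this
        linarith
      have e2 : Real.cosh w ≤ Real.exp w := by
        have := Real.cosh_add_sinh w
        have := Real.sinh_nonneg_iff.2 (le_of_lt (show (0 : ℝ) < w from hw))
        linarith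
      linarith
    have h7 : Kit 0 x ≤ T + Kit 0 (1 / 2) := by rw [h2]; linarith
    have h8 : 1 ≤ Real.exp 1 * Real.exp (-x) := by
      rw [← Real.exp_add]
      exact Real.one_le_exp (by linarith)
    calc Kit 0 x ≤ (T + Kit 0 (1 / 2)) * 1 := by linarith
      _ ≤ (T + Kit 0 (1 / 2)) * (Real.exp 1 * Real.exp (-x)) := by
          refine mul_le_mul_of_nonneg_left h8 (by positivity)
      _ ≤ ((1 + Kit 0 (1 / 2) + Kit 0 1) * (1 + T)) * (Real.exp 1 * Real.exp (-x)) := by
          refine mul_le_mul_of_nonneg_right ?_ (by positivity)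
          nlinarith [mul_pos hp1 hT, mul_pos hp2 hT]
      _ = _ := by ring

lemma kit0_tendsto : Tendsto (Kit 0) (𝓝[>] 0) atTop := by
  rw [tendsto_atTop]
  intro b
  set T : ℝ := 2 * |b| + 1 with hT
  have hTp : 0 < T := by positivity
  have hc : 0 < Real.cosh T := Real.cosh_pos T
  have hev : ∀ᶠ x : ℝ in 𝓝[>] 0, x < 1 / (2 * Real.cosh T) :=
    mem_nhdsWithin_of_mem_nhds (Iio_mem_nhds (by positivity))
  filter_upwards [hev, self_mem_nhdsWithin] with x hx hx0
  have hx0' : 0 < x := hx0
  have h1 : ∫ v in Ioc 0 T, (1 / 2 : ℝ) ≤ ∫ v in Ioc 0 T, Real.exp (-(x * Real.cosh v)) := by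
    refine setIntegral_mono_on (integrableOn_const (by simp)) (ioi_intg hx0' _) measurableSet_Ioc
      fun v hv => ?_
    have h2 : Real.cosh v ≤ Real.cosh T := by
      rw [Real.cosh_le_cosh, abs_of_pos hv.1, abs_of_pos hTp]
      exact hv.2
    have h3 : x * Real.cosh v ≤ 1 / 2 := by
      calc x * Real.cosh v ≤ 1 / (2 * Real.cosh T) * Real.cosh T := by gcongr
        _ = 1 / 2 := by field_simp
    have h4 := Real.add_one_le_exp (-(x * Real.cosh v))
    linarith
  have h2 : ∫ v in Ioc 0 T, Real.exp (-(x * Real.cosh v)) ≤ Kit 0 x := by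
    rw [kit0_eq]
    refine setIntegral_mono_set (ioi_intg hx0' _) (Eventually.of_forall fun v => (Real.exp_pos _).le)
      (Eventually.of_forall fun v hv => hv.1)
  have h3 : ∫ v in Ioc 0 T, (1 / 2 : ℝ) = T / 2 := by
    simp [hTp.le]
    ring
  rw [h3] at h1
  have : b ≤ |b| := le_abs_self b
  linarith

lemma kit_meas : Measurable (Function.uncurry Kit) := by
  have h : StronglyMeasurable (fun p : ℝ × ℝ => ∫ v in Ioi (0 : ℝ),
      Real.exp (-(p.2 * Real.cosh v)) * Real.cos (p.1 * v)) := by
    refine StronglyMeasurable.integral_prod_right (f := fun (p : ℝ × ℝ) (v : ℝ) =>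
      Real.exp (-(p.2 * Real.cosh v)) * Real.cos (p.1 * v)) ?_
    refine Continuous.stronglyMeasurable ?_
    show Continuous fun q : (ℝ × ℝ) × ℝ =>
      Real.exp (-(q.1.2 * Real.cosh q.2)) * Real.cos (q.1.1 * q.2)
    fun_prop
  exact h.measurable

lemma kit_cont : ContinuousOn (Function.uncurry Kit) (univ ×ˢ Ioi 0) := by
  rintro ⟨τ0, x0⟩ ⟨-, hx0⟩
  have hx0' : 0 < x0 := hx0
  refine ContinuousAt.continuousWithinAt ?_
  have hev : ∀ᶠ p : ℝ × ℝ in 𝓝 (τ0, x0), x0 / 2 < p.2 :=
    continuous_snd.continuousAt.eventually (lt_mem_nhds (by show x0 / 2 < x0; linarith))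
  refine continuousAt_of_dominated (F := fun (p : ℝ × ℝ) (v : ℝ) =>
    Real.exp (-(p.2 * Real.cosh v)) * Real.cos (p.1 * v))
    (bound := fun v => Real.exp (-(x0 / 2 * Real.cosh v)))
    (Eventually.of_forall fun p => by fun_prop) ?_ (ioi_intg (by linarith) _)
    (Eventually.of_forall fun v => by fun_prop)
  filter_upwards [hev] with p hp
  refine Eventually.of_forall fun v => ?_
  rw [norm_mul, Real.norm_eq_abs, Real.norm_eq_abs, abs_of_pos (Real.exp_pos _)]
  refine (mul_le_of_le_one_right (Real.exp_pos _).le (Real.abs_cos_le_one _)).trans ?_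
  refine Real.exp_le_exp.2 (neg_le_neg ?_)
  exact mul_le_mul_of_nonneg_right hp.le (Real.cosh_pos v).le

/-- KTB -/
theorem ktb : KtbStatement :=
  ⟨fun τ _ hx => (Kit_intg hx τ).integrableOn, Kit_neg, fun τ _ hx => abs_Kit_le_zero hx τ,
    fun _ hx => Kit_zero_pos hx, kit0_anti, fun _ _ hx hτ => kit_one_div hx hτ,
    ⟨_, fun _ hx => kit0_log hx⟩, kit0_tendsto, kit_meas, kit_cont⟩

end Pool.Agent.H60K.H51
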