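import Pool.Agent.Helper60_AEU.Stmt

/-!
AEU Part III, module KTS: shift of the contour.
-/

set_option autoImplicit false

namespace Pool.Agent.H60K.H51

open MeasureTheory Complex Filter Topology Set Pool.Agent.H38KL Pool.Agent.H60K

lemma four_intg {x φ : ℝ} (hx : 0 < x) (hφ : |φ| < Real.pi / 2) (τ : ℝ) :
    Integrable (fun v : ℝ => Complex.exp (-(x * Complex.cosh (v + φ * I)))
      * Complex.exp (I * τ * v)) := by
  have hc : 0 < Real.cos φ := Real.cos_pos_of_mem_Ioo (abs_lt.mp hφ)
  have h := (Gf_intg hx 0 hc).mul_bdd (c := 1) (g := fun v : ℝ => Complex.exp (I * τ * v))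
    (by fun_prop) (Eventually.of_forall fun v => by
      rw [Complex.norm_exp]
      simp [Complex.mul_re, Complex.mul_im])
  refine h.congr (Eventually.of_forall fun v => ?_)
  simp [Gf]

lemma four_re (x φ τ v : ℝ) :
    (Complex.exp (-(x * Complex.cosh (v + φ * I))) * Complex.exp (I * τ * v)).re
      = Real.exp (-(x * Real.cos φ * Real.cosh v))
        * Real.cos (x * Real.sin φ * Real.sinh v - τ * v) := by
  rw [← Complex.exp_add, Complex.exp_re]
  have e0 : Complex.cosh (v + φ * I) = ((Real.cosh v * Real.cos φ : ℝ) : ℂ)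
      + ((Real.sinh v * Real.sin φ : ℝ) : ℂ) * I := by
    rw [Complex.cosh_add, Complex.cosh_mul_I, Complex.sinh_mul_I]
    push_cast
    ring
  have e1 : (-((x : ℂ) * Complex.cosh (v + φ * I)) + I * τ * v)
      = ((-(x * Real.cos φ * Real.cosh v) : ℝ) : ℂ)
        + ((-(x * Real.sin φ * Real.sinh v - τ * v) : ℝ) : ℂ) * I := by
    rw [e0]
    push_cast
    ring
  have hre : ∀ a b : ℝ, ((a : ℂ) + (b : ℂ) * I).re = a := fun a b => by simp
  have him : ∀ a b : ℝ, ((a : ℂ) + (b : ℂ) * I).im = b := fun a b => by simp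
  rw [e1, hre, him, Real.cos_neg]

/-- KTS -/
theorem kts : KtsStatement := by
  refine ⟨fun τ x φ hx hτ h0 h1 => ?_, fun τ r ψ hr hψ => ?_, fun x φ hx hφ => ?_⟩
  · have := abs_Kit_le hx τ h0 h1
    rwa [abs_of_nonneg hτ] at this
  · have h1 := fourier_Kit hr τ hψ
    have h2 := congrArg Complex.re h1
    rw [Complex.ofReal_re] at h2
    have h3 : (∫ v : ℝ, Complex.exp (-(r * Complex.cosh (v + ψ * I)))
        * Complex.exp (I * τ * v)).re
        = ∫ v : ℝ, (Complex.exp (-(r * Complex.cosh (v + ψ * I)))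
        * Complex.exp (I * τ * v)).re :=
      (Complex.reCLM.integral_comp_comm (four_intg hr hψ τ)).symm
    rw [h3] at h2
    simp only [four_re] at h2
    unfold pw
    have e1 : ((r : ℂ) * Complex.exp (ψ * I)).re = r * Real.cos ψ := by
      rw [Complex.re_ofReal_mul, Complex.exp_ofReal_mul_I_re]
    have e2 : ((r : ℂ) * Complex.exp (ψ * I)).im = r * Real.sin ψ := by
      rw [Complex.im_ofReal_mul, Complex.exp_ofReal_mul_I_im]
    rw [e1, e2, h2, mul_comm ψ τ]
    ring
  · have hc : 0 < Real.cos φ := Real.cos_pos_of_mem_Ioo (abs_lt.mp hφ)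
    -- full line
    have full : ∀ φ : ℝ, |φ| < Real.pi / 2 →
        ∫ τ : ℝ, Real.exp (φ * τ) * Kit τ x = Real.pi * Real.exp (-(x * Real.cos φ)) := by
      intro φ hφ
      have hcφ : 0 < Real.cos φ := Real.cos_pos_of_mem_Ioo (abs_lt.mp hφ)
      set f : ℝ → ℂ := fun v => Complex.exp (-(x * Complex.cosh (v + φ * I))) with hf
      have hfc : Continuous f := by rw [hf]; fun_prop
      have hfi : Integrable f := by
        have := Gf_intg hx 0 hcφ
        refine this.congr (Eventually.of_forall fun v => ?_)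
        simp [Gf, hf]
      have hF : ∀ τ : ℝ, ∫ v : ℝ, f v * Complex.exp (I * τ * v) =
          ((2 * Real.exp (φ * τ) * Kit τ x : ℝ) : ℂ) := fun τ => fourier_Kit hx τ hφ
      have hFi : Integrable (fun τ : ℝ => ∫ v : ℝ, f v * Complex.exp (I * τ * v)) := by
        simp only [hF]
        have h := (Kit_weight_intg hx hφ).const_mul 2
        have h' : Integrable (fun τ : ℝ => 2 * Real.exp (φ * τ) * Kit τ x) := by
          simpa only [mul_assoc] using h
        exact h'.ofReal
      have h1 := inversion hfc hfi hFi 0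
      simp only [hF] at h1
      have h2 : ∀ τ : ℝ, ((2 * Real.exp (φ * τ) * Kit τ x : ℝ) : ℂ)
          * Complex.exp (-(I * τ * ((0 : ℝ) : ℂ)))
          = ((2 * (Real.exp (φ * τ) * Kit τ x) : ℝ) : ℂ) := by
        intro τ
        simp [mul_assoc]
      simp only [h2] at h1
      rw [integral_complex_ofReal, integral_const_mul] at h1
      have h3 : f 0 = ((Real.exp (-(x * Real.cos φ)) : ℝ) : ℂ) := by
        rw [hf]
        simp only [Complex.ofReal_zero, zero_add]
        rw [Complex.cosh_mul_I]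
        push_cast
        rfl
      rw [h3] at h1
      have h4 : 2 * ∫ τ : ℝ, Real.exp (φ * τ) * Kit τ x
          = 2 * Real.pi * Real.exp (-(x * Real.cos φ)) := by
        exact_mod_cast h1
      linarith
    have hi : Integrable (fun τ : ℝ => Kit τ x * Real.cosh (φ * τ)) := by
      have h1 := (Kit_weight_intg hx hφ).add (Kit_weight_intg (φ := -φ) hx (by rwa [abs_neg]))
      refine (h1.div_const 2).congr (Eventually.of_forall fun τ => ?_)
      simp only [Pi.add_apply]
      rw [Real.cosh_eq, neg_mul]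
      ring
    refine ⟨hi.integrableOn, ?_⟩
    have h1 : ∫ τ : ℝ, Kit τ x * Real.cosh (φ * τ) = Real.pi * Real.exp (-(x * Real.cos φ)) := by
      have e1 := full φ hφ
      have e2 := full (-φ) (by rwa [abs_neg])
      rw [Real.cos_neg] at e2
      have e3 : ∫ τ : ℝ, Kit τ x * Real.cosh (φ * τ)
          = ∫ τ : ℝ, (Real.exp (φ * τ) * Kit τ x + Real.exp (-φ * τ) * Kit τ x) / 2 := by
        refine integral_congr_ae (Eventually.of_forall fun τ => ?_)
        simp only
        rw [Real.cosh_eq, neg_mul]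
        ring
      rw [e3, integral_div, integral_add (Kit_weight_intg hx hφ)
        (Kit_weight_intg (φ := -φ) hx (by rwa [abs_neg])), e1, e2]
      ring
    have h2 := integral_comp_abs (f := fun τ : ℝ => Kit τ x * Real.cosh (φ * τ))
    have h3 : ∀ τ : ℝ, Kit |τ| x * Real.cosh (φ * |τ|) = Kit τ x * Real.cosh (φ * τ) := by
      intro τ
      rw [Kit_abs, ← Real.cosh_abs (φ * |τ|), abs_mul, abs_abs, ← abs_mul, Real.cosh_abs]
    simp only [h3] at h2
    rw [h1] at h2
    linarith

end Pool.Agent.H60K.H51
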